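import Pool.Agent.N718.GC.Stm
import Pool.Agent.Helper919.NonRes

/-!
# Project GC (helper718), part CHI (helper152): a residue class with prescribed symbols
-/

set_option autoImplicit false

namespace Pool.Agent.N152.GC

open Finset

theorem odd_congr {q x y : ℕ} (hq : 2 ∣ q) (h : x % q = y % q) (hx : Odd x) : Odd y := by
  rw [Nat.odd_iff] at hx ⊢
  rw [← Nat.mod_mod_of_dvd y hq, ← h, Nat.mod_mod_of_dvd x hq, hx]

theorem jac_congr {q x y : ℕ} (a : ℤ) (hq : 4 * a.natAbs ∣ q) (h : x % q = y % q)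
    (hx : Odd x) : jacobiSym a x = jacobiSym a y := by
  have hq4 : 2 ∣ 4 * a.natAbs := ⟨2 * a.natAbs, by ring⟩
  have hq2 : 2 ∣ q := hq4.trans hq
  have hy := odd_congr hq2 h hx
  rw [jacobiSym.mod_right a hx, jacobiSym.mod_right a hy, ← Nat.mod_mod_of_dvd x hq, h,
    Nat.mod_mod_of_dvd y hq]

theorem jac_prod {r : ℕ} (a : Fin r → ℤ) (T : Finset (Fin r)) (n : ℕ) :
    jacobiSym (∏ j ∈ T, a j) n = ∏ j ∈ T, jacobiSym (a j) n := by
  classical
  induction T using Finset.induction_on with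
  | empty => simp [jacobiSym.one_left]
  | insert i s hi ih => rw [Finset.prod_insert hi, Finset.prod_insert hi, jacobiSym.mul_left, ih]

theorem chi_ : Pool.Agent.N718.GC.S_CHI := by
  intro r a hT j
  classical
  obtain ⟨q, hq⟩ : ∃ q, q = 4 * ∏ j, (a j).natAbs := ⟨_, rfl⟩
  rw [← hq]
  have ha0 : ∀ i, a i ≠ 0 := by
    intro i h0
    refine hT {i} (Finset.singleton_nonempty i) ?_
    rw [Finset.prod_singleton, h0]
    exact ⟨0, by simp⟩
  have hq0 : 0 < q := by
    rw [hq]
    have : 0 < ∏ j, (a j).natAbs := Finset.prod_pos fun i _ => Int.natAbs_pos.2 (ha0 i)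
    omega
  have hq2 : 2 ∣ q := ⟨2 * ∏ j, (a j).natAbs, by rw [hq]; ring⟩
  have hAq : ∀ T : Finset (Fin r), 4 * (∏ j ∈ T, a j).natAbs ∣ q := by
    intro T
    have e1 : (∏ j ∈ T, a j).natAbs = ∏ j ∈ T, (a j).natAbs := map_prod Int.natAbsHom _ _
    rw [hq, e1]
    exact Nat.mul_dvd_mul_left 4 (Finset.prod_dvd_prod_of_subset _ _ _ (Finset.subset_univ T))
  have haq : ∀ i, 4 * (a i).natAbs ∣ q := by
    intro i
    have := hAq {i}
    rwa [Finset.prod_singleton] at this
  have hodd : ∀ n, Nat.Coprime n q → Odd n := fun n hn => by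
    rw [← Nat.coprime_two_right]
    exact Nat.Coprime.coprime_dvd_right hq2 hn
  obtain ⟨H, hH⟩ : ∃ H : Finset ℕ, H = (range q).filter fun n => Nat.Coprime n q := ⟨_, rfl⟩
  have hHn : ∀ n, n ∈ H ↔ n < q ∧ Nat.Coprime n q := by
    intro n
    rw [hH, Finset.mem_filter, Finset.mem_range]
  -- the sums
  have hsum : ∀ T : Finset (Fin r), T.Nonempty →
      ∑ n ∈ H, jacobiSym (∏ j ∈ T, a j) n = 0 := by
    intro T hTn
    obtain ⟨A, hA⟩ : ∃ A, A = ∏ j ∈ T, a j := ⟨_, rfl⟩
    have hAsq : ¬ IsSquare A := hA ▸ hT T hTn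
    have hAq' : 4 * A.natAbs ∣ q := hA ▸ hAq T
    rw [← hA]
    obtain ⟨d, hd, hJ⟩ := Pool.Agent.Helper919.exists_jacobi_neg_one A hAsq
    have hd0 : d ≠ 0 := by
      rintro rfl
      exact absurd hd (by decide)
    have hA0 : A ≠ 0 := by
      rintro rfl
      exact hAsq ⟨0, by simp⟩
    have hA4 : 4 * A.natAbs ≠ 0 := by
      have := Int.natAbs_pos.2 hA0
      omega
    have hc1 : Int.gcd A d = 1 := by
      by_contra h
      have : NeZero d := ⟨hd0⟩
      have := (jacobiSym.eq_zero_iff_not_coprime (a := A) (b := d)).2 h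
      rw [this] at hJ
      norm_num at hJ
    have hc : Nat.Coprime d (4 * A.natAbs) := by
      apply Nat.Coprime.mul_right
      · have h2 : Nat.Coprime d 2 := Nat.coprime_two_right.2 hd
        have : (4 : ℕ) = 2 ^ 2 := by norm_num
        rw [this]
        exact Nat.Coprime.pow_right 2 h2
      · rw [Nat.coprime_comm]
        have : Int.gcd A d = Nat.gcd A.natAbs d := by
          rw [Int.gcd_def, Int.natAbs_natCast]
        rw [this] at hc1
        exact hc1
    have : NeZero (4 * A.natAbs) := ⟨hA4⟩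
    obtain ⟨p, hp1, hp2, hp3⟩ := Nat.forall_exists_prime_gt_and_eq_mod
      (q := 4 * A.natAbs) (a := (d : ZMod (4 * A.natAbs))) ((ZMod.isUnit_iff_coprime _ _).2 hc) q
    have hpm : p % (4 * A.natAbs) = d % (4 * A.natAbs) := (ZMod.natCast_eq_natCast_iff' _ _ _).1 hp3
    have hJp : jacobiSym A p = -1 := by
      rw [← hJ]
      exact (jac_congr A dvd_rfl hpm.symm hd).symm
    have hpq : Nat.Coprime p q := by
      rw [hp2.coprime_iff_not_dvd]
      exact fun h => absurd (Nat.le_of_dvd hq0 h) (by omega)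
    have hp0 : p ≠ 0 := hp2.ne_zero
    have hmul : ∀ n ∈ H, jacobiSym A (n * p % q : ℕ) = -jacobiSym A n := by
      intro n hn
      have hn' := ((hHn n).1 hn).2
      have h1 : Nat.Coprime (n * p) q := hn'.mul_left hpq
      have hn0 : n ≠ 0 := by
        rintro rfl
        exact absurd (hodd 0 hn') (by decide)
      have : NeZero n := ⟨hn0⟩
      have : NeZero p := ⟨hp0⟩
      have h2 := jac_congr A hAq' (Nat.mod_mod (n * p) q).symm (hodd _ h1)
      rw [← h2, jacobiSym.mul_right, hJp, mul_neg_one]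
    have hmaps : Set.MapsTo (fun n => n * p % q) (H : Set ℕ) H := by
      intro n hn
      rw [Finset.mem_coe, hHn] at hn ⊢
      refine ⟨Nat.mod_lt _ hq0, ?_⟩
      have h1 : Nat.Coprime (n * p) q := hn.2.mul_left hpq
      unfold Nat.Coprime at h1 ⊢
      rw [← h1]
      exact (Nat.mod_modEq (n * p) q).gcd_eq
    have hinj : Set.InjOn (fun n => n * p % q) (H : Set ℕ) := by
      intro x hx y hy hxy
      rw [Finset.mem_coe, hHn] at hx hy
      have h1 : x * p ≡ y * p [MOD q] := hxy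
      have h2 := Nat.ModEq.cancel_right_of_coprime (Nat.coprime_comm.1 hpq) h1
      unfold Nat.ModEq at h2
      rwa [Nat.mod_eq_of_lt hx.1, Nat.mod_eq_of_lt hy.1] at h2
    have hsurj := Finset.surjOn_of_injOn_of_card_le _ hmaps hinj le_rfl
    have hbij : ∑ n ∈ H, jacobiSym A (n * p % q : ℕ) = ∑ n ∈ H, jacobiSym A n :=
      Finset.sum_nbij (fun n => n * p % q) hmaps hinj hsurj fun _ _ => rfl
    rw [Finset.sum_congr rfl hmul, Finset.sum_neg_distrib] at hbij
    omega
  obtain ⟨ε, hε1, hε2⟩ : ∃ ε : Fin r → ℤ, ε j = -1 ∧ ∀ j', j' ≠ j → ε j' = 1 :=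
    ⟨fun i => if i = j then -1 else 1, if_pos rfl, fun i hi => if_neg hi⟩
  have hεp : ∀ i, ε i = 1 ∨ ε i = -1 := by
    intro i
    by_cases h : i = j
    · rw [h]
      exact Or.inr hε1
    · exact Or.inl (hε2 i h)
  have hcard : 0 < H.card := by
    refine Finset.card_pos.2 ?_
    rcases Nat.lt_or_ge 1 q with h | h
    · exact ⟨1, (hHn 1).2 ⟨h, Nat.coprime_one_left q⟩⟩
    · have h1 : q = 1 := by omega
      rw [h1] at hq2
      omega
  have htot : ∑ n ∈ H, ∏ i, (1 + ε i * jacobiSym (a i) n) = H.card := by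
    have e1 : ∀ n : ℕ, ∏ i, (1 + ε i * jacobiSym (a i) n) =
        ∑ T ∈ (univ : Finset (Fin r)).powerset,
          (∏ i ∈ T, ε i) * jacobiSym (∏ i ∈ T, a i) n := by
      intro n
      rw [Finset.prod_one_add]
      refine Finset.sum_congr rfl fun T _ => ?_
      rw [Finset.prod_mul_distrib, jac_prod]
    rw [Finset.sum_congr rfl fun n _ => e1 n, Finset.sum_comm,
      Finset.sum_eq_single_of_mem ∅ (Finset.empty_mem_powerset _)]
    · simp [jacobiSym.one_left]
    · intro T _ hTne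
      rw [← Finset.mul_sum, hsum T (Finset.nonempty_iff_ne_empty.2 hTne), mul_zero]
  obtain ⟨n, hn, hne⟩ : ∃ n ∈ H, ∏ i, (1 + ε i * jacobiSym (a i) n) ≠ 0 := by
    refine Finset.exists_ne_zero_of_sum_ne_zero ?_
    rw [htot]
    exact_mod_cast hcard.ne'
  have hnq := ((hHn n).1 hn).2
  have hval : ∀ i, jacobiSym (a i) n = ε i := by
    intro i
    have h1 := Finset.prod_ne_zero_iff.1 hne i (Finset.mem_univ i)
    have hn0 : n ≠ 0 := by
      rintro rfl
      exact absurd (hodd 0 hnq) (by decide)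
    have : NeZero n := ⟨hn0⟩
    have h3 : jacobiSym (a i) n ≠ 0 := by
      intro h0
      rw [jacobiSym.eq_zero_iff_not_coprime] at h0
      refine h0 ?_
      have h4 : (a i).natAbs ∣ q := (Dvd.intro_left 4 rfl).trans (haq i)
      have h5 : Nat.Coprime n (a i).natAbs := Nat.Coprime.coprime_dvd_right h4 hnq
      rw [Int.gcd_def, Int.natAbs_natCast]
      exact Nat.coprime_comm.1 h5
    rcases jacobiSym.trichotomy (a i) n with h2 | h2 | h2
    · exact absurd h2 h3
    · rcases hεp i with h4 | h4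
      · rw [h2, h4]
      · rw [h2, h4] at h1
        norm_num at h1
    · rcases hεp i with h4 | h4
      · rw [h2, h4] at h1
        norm_num at h1
      · rw [h2, h4]
  refine ⟨n, hnq, fun l hl => ⟨?_, fun j' hj' => ?_⟩⟩
  · rw [← jac_congr (a j) (haq j) hl.symm (hodd n hnq), hval, hε1]
  · rw [← jac_congr (a j') (haq j') hl.symm (hodd n hnq), hval, hε2 j' hj']

end Pool.Agent.N152.GC
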